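import Pool.Agent.Lib.H44U.I3

/-!
# The multigraph overfull conjecture for maximum degree above half of the largest possible one

For every `ε > 0` there is `n0` such that for every order `n ≥ n0` there is `μ0` such that every
loopless multigraph `G` of order `n` with multiplicity `μ ≥ μ0` and `Δ ≥ (1/2 + ε) μ n` satisfies
`χ'(G) = max (Δ(G), w(G))`. There is no condition on the minimum degree or on the parity of `n`.
-/

namespace Pool.Agent.Results.MP_7ac802_co.LargeMaxDegree

open Pool.Agent.H44O

theorem result (ε : ℝ) (hε : 0 < ε) : ∃ n0 : ℕ, ∀ n : ℕ, n0 ≤ n →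
    ∃ μ0 : ℕ, ∀ (V E : Type) [Fintype V] [Fintype E] (G : MGraph V E), Fintype.card V = n →
      μ0 ≤ G.maxMult → (1 / 2 + ε) * (G.maxMult * n) ≤ (G.maxDeg : ℝ) →
      G.chromaticIndex = max G.maxDeg G.dens :=
  Pool.Agent.H44U.large_max_degree_half ε hε

end Pool.Agent.Results.MP_7ac802_co.LargeMaxDegree
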