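import Pool.Agent.Lib.H44O.H6

/-!
# The multigraph overfull conjecture for large multiplicity and large minimum degree

For every order `n` and every real `θ > n / 2 + 1` there is `μ0` such that every loopless multigraph
`G` of order `n` whose multiplicity is at least `μ0` and whose minimum degree is at least
`θ * μ(G)` satisfies `χ'(G) = max (Δ(G), w(G))`. In particular, if `χ'(G) > Δ(G)` then
`χ'(G) = w(G)`.
-/

namespace Pool.Agent.Results.MP_7ac802_co.LargeMinDegree

open Pool.Agent.H44O

theorem result (n : ℕ) (θ : ℝ) (hθ : (n : ℝ) / 2 + 1 < θ) :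
    ∃ μ0 : ℕ, ∀ (V E : Type) [Fintype V] [Fintype E] (G : MGraph V E), Fintype.card V = n →
      μ0 ≤ G.maxMult → (∀ v, θ * G.maxMult ≤ G.deg v) →
      G.chromaticIndex = max G.maxDeg G.dens :=
  min_degree n θ hθ

end Pool.Agent.Results.MP_7ac802_co.LargeMinDegree
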