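import Pool.Agent.Lib.H44O.R4

/-!
# The multigraph overfull conjecture for regular multigraphs of large multiplicity, degree `> μ n / 2`

For every order `n` and every real `θ > n / 2` there is `μ0` such that every `D`-regular loopless
multigraph `G` of order `n` whose multiplicity is at least `μ0` and with `D ≥ θ * μ(G)` satisfies
`χ'(G) = max (Δ(G), w(G))`.
-/

namespace Pool.Agent.Results.MP_7ac802_co.RegularHalf

open Pool.Agent.H44O

theorem result (n : ℕ) (θ : ℝ) (hθ : (n : ℝ) / 2 < θ) :
    ∃ μ0 : ℕ, ∀ (V E : Type) [Fintype V] [Fintype E] (G : MGraph V E) (D : ℕ),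
      Fintype.card V = n → μ0 ≤ G.maxMult → (∀ v, G.deg v = D) → θ * G.maxMult ≤ D →
      G.chromaticIndex = max G.maxDeg G.dens :=
  regular_half n θ hθ

end Pool.Agent.Results.MP_7ac802_co.RegularHalf
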