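import Pool.Agent.Lib.H44S.G2

/-!
# The multigraph overfull conjecture for thick complete multigraphs

For every order `n` there is `K` such that every loopless multigraph `G` of order `n` in which any
two vertices are joined by at least `K` edges satisfies `χ'(G) = max (Δ(G), w(G))`. There is no
condition on the maximum degree, on the minimum degree or on the parity of `n`.
-/

namespace Pool.Agent.Results.MP_7ac802_co.ThickComplete

open Pool.Agent.H44O

theorem result (n : ℕ) : ∃ K : ℕ, ∀ (V E : Type) [Fintype V] [Fintype E] (G : MGraph V E),
    Fintype.card V = n → (∀ u v, u ≠ v → K ≤ G.mult u v) →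
    G.chromaticIndex = max G.maxDeg G.dens :=
  Pool.Agent.H44S.thick n

end Pool.Agent.Results.MP_7ac802_co.ThickComplete
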